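import Pool.Agent.W524.LV.Ext
import Pool.Agent.W263.LG.NFSys

/-!
# The asymptotic form of the conjecture of Birch and Swinnerton-Dyer over number fields

Let `K` be a number field, `E : y² = x³ + a x + b` an elliptic curve, `a, b ∈ 𝓞 K` (every elliptic curve over
`K` has such an equation), `S` a finite set of places which contains all places dividing
`2 (4a³ + 27b²)`, and let the Euler factors of `L(E/K, s)` at the places of `S` be arbitrary inverse
polynomials `B_v(q_v^{-s})⁻¹` without poles for `Re s ≥ 1` (for the Hasse-Weil `L`-function they are of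
the usual form, of degree at most `2`).  Let `F` be a continuation of `L(E/K, s)` along the real half line
`s ≥ 1`, `r = ord_{s=1} F`, `N_v` the number of affine points of `E` over the residue field at `v`,
`a_v = q_v - N_v`, and put

  `P(x) = ∏_{v ∉ S, q_v ≤ x} (N_v + 1) / q_v`,
  `P*(x) = ∏_{v ∈ S} |B_v(q_v⁻¹)| · P(x) · exp(∑_{v ∉ S, √x < q_v ≤ x} (a_v² - 2 q_v) / (2 q_v²))`

(the last factor tends to `1/√2` by the theory of Rankin and Selberg when that is available for `E/K`).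
Birch and Swinnerton-Dyer expect `P*(x) ~ A (log x)^rank` with `A = e^{γ r} r! / |L^{(r)}(E/K, 1)|`.

Goldfeld (1982) showed for `K = ℚ` that `P(x) ~ A (log x)^ρ` implies the Riemann hypothesis for `L(E, s)`,
`ρ = r` and the value of `A`; Kuo and Murty, Conrad (2005) characterised the asymptotic formula by a
two-sided estimate for `∑_{q_v ≤ x} a_v log q_v`.  Here: the full asymptotic formula over every number field
follows from a ONE-SIDED condition on the windows `[x, l x]` for a single `l > 1`, and the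
continuation of `L(E/K, s)` is only needed along the real axis.

The proof uses Hasse's bound (proved for all residue fields of odd characteristic), Landau's lemma, a
local one-sided version of the Tauberian theorem of Fatou and Riesz (`Pool.Agent.W136.FR`) and the
continuation of the Laplace transform of `log P*(e^u) - r log u` to a neighbourhood of `0`
(`Pool.Agent.W524.LV`, on top of `Pool.Agent.W263.EP`).
-/

set_option autoImplicit false

namespace Pool.Agent.Results.MP_cd906c_nt.AsymptoticWindows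

open NumberField IsDedekindDomain Filter Topology Polynomial

noncomputable section

variable {K : Type} [Field K] [NumberField K]

/-- The number of affine points of `y² = x³ + a x + b` over the residue field at `v`. -/
def pointCount (a b : 𝓞 K) (v : HeightOneSpectrum (𝓞 K)) : ℕ :=
  Nat.card {Q : (𝓞 K ⧸ v.asIdeal) × (𝓞 K ⧸ v.asIdeal) //
    Q.2 ^ 2 = Q.1 ^ 3 + Ideal.Quotient.mk v.asIdeal a * Q.1 + Ideal.Quotient.mk v.asIdeal b}

/-- `a_v = q_v - N_v`, `q_v = Nv`, `N_v` the number of affine points. -/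
def frobTrace (a b : 𝓞 K) (v : HeightOneSpectrum (𝓞 K)) : ℝ :=
  (Ideal.absNorm v.asIdeal : ℝ) - pointCount a b v

open Classical in
/-- The Euler product `L(E/K, s)`: the factor at `v ∉ S` is `(1 - a_v q_v^{-s} + q_v^{1-2s})⁻¹`, at the
places of the finite set `S` it is `B_v(q_v^{-s})⁻¹`. -/
def LFun (a b : 𝓞 K) (S : Finset (HeightOneSpectrum (𝓞 K)))
    (B : HeightOneSpectrum (𝓞 K) → ℂ[X]) (s : ℂ) : ℂ :=
  ∏' v : HeightOneSpectrum (𝓞 K),
    if v ∈ S then ((B v).eval (((Ideal.absNorm v.asIdeal : ℕ) : ℂ) ^ (-s)))⁻¹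
    else (1 - (frobTrace a b v : ℂ) * ((Ideal.absNorm v.asIdeal : ℕ) : ℂ) ^ (-s) +
      ((Ideal.absNorm v.asIdeal : ℕ) : ℂ) ^ (1 - 2 * s))⁻¹

/-- The Euler factors at the places of `S` have no poles for `Re s ≥ 1`. -/
def BadFactors (S : Finset (HeightOneSpectrum (𝓞 K)))
    (B : HeightOneSpectrum (𝓞 K) → ℂ[X]) : Prop :=
  ∀ v ∈ S, ∀ s : ℂ, 1 ≤ s.re → (B v).eval (((Ideal.absNorm v.asIdeal : ℕ) : ℂ) ^ (-s)) ≠ 0

/-- `F` continues `L(E/K, s)` analytically to a neighbourhood of the real half line `s ≥ 1`. -/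
def Continues (a b : 𝓞 K) (S : Finset (HeightOneSpectrum (𝓞 K)))
    (B : HeightOneSpectrum (𝓞 K) → ℂ[X]) (F : ℂ → ℂ) : Prop :=
  (∀ s : ℝ, 1 ≤ s → AnalyticAt ℂ F s) ∧ ∀ s : ℝ, 3 / 2 < s → F s = LFun a b S B s

/-- The product of Birch and Swinnerton-Dyer `P(x) = ∏_{v ∉ S, q_v ≤ x} (N_v + 1) / q_v`. -/
def bsdProduct (a b : 𝓞 K) (S : Finset (HeightOneSpectrum (𝓞 K))) (x : ℝ) : ℝ :=
  ∏ᶠ v ∈ {v : HeightOneSpectrum (𝓞 K) | v ∉ S ∧ (Ideal.absNorm v.asIdeal : ℝ) ≤ x},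
    ((pointCount a b v : ℝ) + 1) / Ideal.absNorm v.asIdeal

/-- The corrected product
`P*(x) = |∏_{v ∈ S} B_v(q_v⁻¹)| · P(x) · exp(∑_{v ∉ S, √x < q_v ≤ x} (a_v² - 2 q_v) / (2 q_v²))`. -/
def bsdStar (a b : 𝓞 K) (S : Finset (HeightOneSpectrum (𝓞 K)))
    (B : HeightOneSpectrum (𝓞 K) → ℂ[X]) (x : ℝ) : ℝ :=
  ‖∏ v ∈ S, (B v).eval ((((Ideal.absNorm v.asIdeal : ℕ) : ℂ))⁻¹)‖ *
    (bsdProduct a b S x * Real.exp (∑ᶠ v ∈ {v : HeightOneSpectrum (𝓞 K) | v ∉ S ∧
      √x < (Ideal.absNorm v.asIdeal : ℝ) ∧ (Ideal.absNorm v.asIdeal : ℝ) ≤ x},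
        (frobTrace a b v ^ 2 - 2 * (Ideal.absNorm v.asIdeal : ℝ)) /
          (2 * (Ideal.absNorm v.asIdeal : ℝ) ^ 2)))

/-- `P` is slowly increasing on the windows `[x, l x]`: for every `ε > 0`, `P(y) ≤ (1 + ε) P(x)` for all
large `x` and `x ≤ y ≤ l x`. -/
def SlowUp (a b : 𝓞 K) (S : Finset (HeightOneSpectrum (𝓞 K))) (l : ℝ) : Prop :=
  ∀ ε : ℝ, 0 < ε → ∀ᶠ x : ℝ in atTop, ∀ y, x ≤ y → y ≤ l * x →
    bsdProduct a b S y ≤ (1 + ε) * bsdProduct a b S x

/-- `P` is slowly decreasing on the windows `[x, l x]`: for every `ε > 0`, `P(x) ≤ (1 + ε) P(y)` for all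
large `x` and `x ≤ y ≤ l x`. -/
def SlowDown (a b : 𝓞 K) (S : Finset (HeightOneSpectrum (𝓞 K))) (l : ℝ) : Prop :=
  ∀ ε : ℝ, 0 < ε → ∀ᶠ x : ℝ in atTop, ∀ y, x ≤ y → y ≤ l * x →
    bsdProduct a b S x ≤ (1 + ε) * bsdProduct a b S y

/-- The absolute value `|F^{(r)}(1)| / r!` of the leading coefficient. -/
def leadAbs (F : ℂ → ℂ) (r : ℕ) : ℝ := ‖iteratedDeriv r F 1‖ / (r.factorial : ℝ)

open Classical in
/-- The rank of the group of `K`-rational points. -/
def rank (a b : 𝓞 K) : ℕ :=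
  Module.finrank ℤ
    (WeierstrassCurve.Affine.Point
      (WeierstrassCurve.toAffine
        ({ a₁ := 0, a₂ := 0, a₃ := 0, a₄ := (a : K), a₆ := (b : K) } : WeierstrassCurve K)))

/-! ### Translation -/

open Pool.Agent.W263.LG.NF (powerTrace tdataK LFB_K central norm_ge_two)
open Pool.Agent.W263.EP (PP PS IsContB IsFullB bc BB)
open Pool.Agent.W524.LV (QQ WUp WLo lead)
open Pool.Agent.H341R2 (sysK)

theorem cen : ((1 : ℝ) + 1) / 2 = 1 := by norm_num

theorem cen2 : ((1 : ℝ) + 2) / 2 = 3 / 2 := by norm_num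

theorem hcc : ((((1 : ℝ) + 1) / 2 : ℝ) : ℂ) = 1 := by rw [cen, Complex.ofReal_one]

theorem PP_eq {a b : 𝓞 K} {S : Finset (sysK K).X} (hS : ∀ v, v ∉ S → (2 : 𝓞 K) ∉ v.asIdeal) :
    PP (sysK K) (S : Set (sysK K).X) (powerTrace a b) 1 = bsdProduct a b S := by
  funext x
  unfold PP bsdProduct
  refine finprod_mem_congr rfl fun (v : HeightOneSpectrum (𝓞 K)) hv => ?_
  have hv' : v ∉ S := hv.1
  rw [central v (hS v hv')]
  rfl

theorem bc_eq {S : Finset (sysK K).X} (B : HeightOneSpectrum (𝓞 K) → ℂ[X]) :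
    bc (sysK K) S B 1 = ‖∏ v ∈ (show Finset (HeightOneSpectrum (𝓞 K)) from S),
      (B v).eval ((((Ideal.absNorm v.asIdeal : ℕ) : ℂ))⁻¹)‖ := by
  unfold bc BB
  congr 1
  refine Finset.prod_congr rfl fun v _ => ?_
  rw [hcc, Complex.cpow_neg_one]
  rfl

theorem two_eq {a b : 𝓞 K} (v : HeightOneSpectrum (𝓞 K)) :
    powerTrace a b v 2 * (Ideal.absNorm v.asIdeal : ℝ) ^ (-(1 + 1) : ℝ) / 2 =
      (frobTrace a b v ^ 2 - 2 * (Ideal.absNorm v.asIdeal : ℝ)) /
        (2 * (Ideal.absNorm v.asIdeal : ℝ) ^ 2) := by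
  have hN : (0 : ℝ) < (Ideal.absNorm v.asIdeal : ℝ) := by linarith [norm_ge_two v]
  have e2 : powerTrace a b v 2 = frobTrace a b v ^ 2 - 2 * (Ideal.absNorm v.asIdeal : ℝ) := by
    have : powerTrace a b v 2 = Pool.Agent.W263.LG.NF.frobTrace a b v *
      Pool.Agent.W263.LG.NF.frobTrace a b v - (Ideal.absNorm v.asIdeal : ℝ) * 2 := rfl
    rw [this]
    have h3 : Pool.Agent.W263.LG.NF.frobTrace a b v = frobTrace a b v := rfl
    rw [h3]
    ring
  rw [e2, show (-(1 + 1) : ℝ) = -((2 : ℕ) : ℝ) by norm_num, Real.rpow_neg hN.le,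
    Real.rpow_natCast]
  field_simp

theorem PS_eq {a b : 𝓞 K} {S : Finset (sysK K).X} (hS : ∀ v, v ∉ S → (2 : 𝓞 K) ∉ v.asIdeal)
    (x : ℝ) : PS (sysK K) (S : Set (sysK K).X) (powerTrace a b) 1 x =
      bsdProduct a b S x * Real.exp (∑ᶠ v ∈ {v : HeightOneSpectrum (𝓞 K) |
        v ∉ (show Finset (HeightOneSpectrum (𝓞 K)) from S) ∧
        √x < (Ideal.absNorm v.asIdeal : ℝ) ∧ (Ideal.absNorm v.asIdeal : ℝ) ≤ x},
        (frobTrace a b v ^ 2 - 2 * (Ideal.absNorm v.asIdeal : ℝ)) /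
          (2 * (Ideal.absNorm v.asIdeal : ℝ) ^ 2)) := by
  have h2 := congrFun (PP_eq (a := a) (b := b) hS) x
  unfold PS
  rw [h2]
  congr 2
  refine finsum_mem_congr rfl fun (v : HeightOneSpectrum (𝓞 K)) hv => ?_
  exact two_eq v

theorem QQ_eq {a b : 𝓞 K} {S : Finset (sysK K).X} (hS : ∀ v, v ∉ S → (2 : 𝓞 K) ∉ v.asIdeal)
    (B : HeightOneSpectrum (𝓞 K) → ℂ[X]) :
    QQ (sysK K) S B (powerTrace a b) 1 = bsdStar a b S B := by
  funext x
  unfold QQ bsdStar
  rw [bc_eq, PS_eq hS]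

theorem cont_iff {a b : 𝓞 K} {S : Finset (sysK K).X} (hS : ∀ v, v ∉ S → (2 : 𝓞 K) ∉ v.asIdeal)
    (B : HeightOneSpectrum (𝓞 K) → ℂ[X]) {F : ℂ → ℂ}
    (hF : Continues a b S B F) : IsContB (sysK K) S B (powerTrace a b) 1 F := by
  refine ⟨fun s hs => hF.1 s (by rw [cen] at hs; exact hs.le), fun s hs => ?_⟩
  rw [cen2] at hs
  rw [LFB_K hS B (by rw [Complex.ofReal_re]; linarith), hF.2 s hs]
  rfl

theorem up_iff {a b : 𝓞 K} {S : Finset (sysK K).X} (hS : ∀ v, v ∉ S → (2 : 𝓞 K) ∉ v.asIdeal)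
    {l : ℝ} : (∀ C : ℝ, 1 < C →
      WUp (PP (sysK K) (S : Set (sysK K).X) (powerTrace a b) 1) l C) ↔ SlowUp a b S l := by
  rw [PP_eq hS]
  constructor
  · intro h ε hε
    exact h (1 + ε) (by linarith)
  · intro h C hC
    have := h (C - 1) (by linarith)
    rwa [add_sub_cancel] at this

theorem down_iff {a b : 𝓞 K} {S : Finset (sysK K).X} (hS : ∀ v, v ∉ S → (2 : 𝓞 K) ∉ v.asIdeal)
    {l : ℝ} : (∀ C : ℝ, 1 < C →
      WLo (PP (sysK K) (S : Set (sysK K).X) (powerTrace a b) 1) l C) ↔ SlowDown a b S l := by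
  rw [PP_eq hS]
  constructor
  · intro h ε hε
    exact h (1 + ε) (by linarith)
  · intro h C hC
    have := h (C - 1) (by linarith)
    rwa [add_sub_cancel] at this

/-- **One-sided windows and the asymptotic form of the conjecture over a number field.**

Let `F` be a continuation of `L(E/K, s)` along the real half line `s ≥ 1`.  Then `r = ord_{s=1} F` is finite,
`Λ = |F^{(r)}(1)| / r! > 0`, and the following are equivalent:

1. `P*(x) / (log x)^r → e^{γ r} / Λ`;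
2. `P*(x) ~ A (log x)^m` for some real `m` and `A > 0`;
3. for some `l > 1`, `P` is slowly increasing on the windows `[x, l x]`;
4. `F` has no real zeros `s > 1`, and for some `l > 1`, `P` is slowly decreasing on the windows `[x, l x]`;
5. `F` has no real zeros `s > 1`, and `P(y) / P(x) → 1` uniformly for `x ≤ y ≤ l x`, for every `l > 1`.

In this case `L(E/K, s)` has an analytic continuation to the half plane `Re s > 1`, without zeros
there.  Moreover `P*(x) ~ A (log x)^{rank E(K)}` for some `A > 0` if and only if `ord_{s=1} L(E/K, s) = rank E(K)`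
and, for some `l > 1`, `P` is slowly increasing on the windows `[x, l x]`. -/
theorem result (K : Type) [Field K] [NumberField K] (a b : 𝓞 K)
    (S : Finset (HeightOneSpectrum (𝓞 K)))
    (hS : ∀ v, v ∉ S → 2 * (4 * a ^ 3 + 27 * b ^ 2) ∉ v.asIdeal)
    (B : HeightOneSpectrum (𝓞 K) → ℂ[X]) (hB : BadFactors S B)
    (F : ℂ → ℂ) (hF : Continues a b S B F) :
    ∃ r : ℕ, analyticOrderAt F 1 = r ∧ 0 < leadAbs F r ∧
    List.TFAE [
      Tendsto (fun x : ℝ => bsdStar a b S B x / Real.log x ^ r) atTop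
        (𝓝 (Real.exp (r * Real.eulerMascheroniConstant) / leadAbs F r)),
      ∃ m A : ℝ, 0 < A ∧ Tendsto (fun x : ℝ => bsdStar a b S B x / Real.log x ^ m) atTop (𝓝 A),
      ∃ l : ℝ, 1 < l ∧ SlowUp a b S l,
      (∀ s : ℝ, 1 < s → F s ≠ 0) ∧ ∃ l : ℝ, 1 < l ∧ SlowDown a b S l,
      (∀ s : ℝ, 1 < s → F s ≠ 0) ∧ ∀ l : ℝ, 1 < l → SlowUp a b S l ∧ SlowDown a b S l] ∧
    (∀ l : ℝ, 1 < l → SlowUp a b S l → ∃ G : ℂ → ℂ,
      DifferentiableOn ℂ G {s : ℂ | 1 < s.re} ∧ (∀ s : ℂ, 1 < s.re → G s ≠ 0) ∧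
      (∀ s : ℂ, 3 / 2 < s.re → G s = LFun a b S B s) ∧ ∀ s : ℝ, 1 < s → F s = G s) ∧
    ((∃ A : ℝ, 0 < A ∧
        Tendsto (fun x : ℝ => bsdStar a b S B x / Real.log x ^ rank a b) atTop (𝓝 A)) ↔
      r = rank a b ∧ ∃ l : ℝ, 1 < l ∧ SlowUp a b S l) := by
  revert S
  intro (S : Finset (Pool.Agent.H341R2.sysK K).X) hS hB hF
  have hS2 : ∀ v, v ∉ S → (2 : 𝓞 K) ∉ v.asIdeal := fun v hv h =>
    hS v hv (v.asIdeal.mul_mem_right _ h)
  have E : Pool.Agent.W263.EP.TData (sysK K)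
      (Pool.Agent.W263.EP.tn (sysK K) (S : Set (sysK K).X) (powerTrace a b) 1) 2 := tdataK hS2
  have hB' : ∀ x ∈ S, ∀ s : ℂ, ((1 : ℝ) + 1) / 2 ≤ s.re →
      (B x).eval ((((sysK K).N x : ℕ) : ℂ) ^ (-s)) ≠ 0 := by
    intro x hx s hs
    rw [cen] at hs
    exact hB x hx s hs
  have hC := cont_iff hS2 B hF
  have hA : AnalyticAt ℂ F ((((1 : ℝ) + 1) / 2 : ℝ) : ℂ) := by
    rw [cen]
    exact hF.1 1 le_rfl
  have hSl := Pool.Agent.W263.EP.slow_sysK K
  obtain ⟨r, hr⟩ := Pool.Agent.W524.LV.order_finite E hB' hC hA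
  have T := Pool.Agent.W524.LV.limit_tfae' E hSl hB' hC hA hr
  have hL : lead F (((1 : ℝ) + 1) / 2) r = leadAbs F r := by
    unfold lead leadAbs
    rw [hcc]
  have hpos : 0 < leadAbs F r := by
    rw [← hL]
    exact (Pool.Agent.W263.EP.lead_limit_at hA hr).1
  have hQ := QQ_eq (a := a) (b := b) hS2 B
  refine ⟨r, by rw [← hcc]; exact hr, hpos, ?_, ?_, ?_⟩
  · rw [hL, hQ] at T
    have e5 : ((∀ s : ℝ, 1 < s → F s ≠ 0) ∧ ∀ l C : ℝ, 1 < l → 1 < C →
        WUp (PP (sysK K) (S : Set (sysK K).X) (powerTrace a b) 1) l C ∧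
        WLo (PP (sysK K) (S : Set (sysK K).X) (powerTrace a b) 1) l C) ↔
        ((∀ s : ℝ, 1 < s → F s ≠ 0) ∧ ∀ l : ℝ, 1 < l → SlowUp a b S l ∧ SlowDown a b S l) := by
      refine and_congr Iff.rfl (forall_congr' fun l => ?_)
      rw [← up_iff hS2, ← down_iff hS2]
      exact ⟨fun h hl => ⟨fun C hC => (h C hl hC).1, fun C hC => (h C hl hC).2⟩,
        fun h C hl hC => ⟨(h hl).1 C hC, (h hl).2 C hC⟩⟩
    simp only [cen, e5, up_iff hS2, down_iff hS2] at T
    exact T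
  · intro l hl h
    obtain ⟨G, hG, hFG⟩ := Pool.Agent.W524.LV.ext_of_WUp E hB' hC hl (by norm_num : (0 : ℝ) < 2)
      ((up_iff hS2).mpr h 2 (by norm_num))
    rw [cen] at hFG
    unfold IsFullB at hG
    rw [cen, cen2] at hG
    refine ⟨G, hG.1, hG.2.1, fun s hs => ?_, hFG⟩
    rw [hG.2.2 s hs, LFB_K hS2 B (by linarith)]
    rfl
  · have h1 := Pool.Agent.W524.LV.lim_iff_order E hSl hB' hC hA hr (rank a b : ℝ)
    rw [hQ] at h1
    simp only [up_iff hS2, Real.rpow_natCast, Nat.cast_inj] at h1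
    exact h1

end

end Pool.Agent.Results.MP_cd906c_nt.AsymptoticWindows
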