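import Pool.Agent.W192.CY.Core
import Pool.Agent.W612.CY.COEF
import Pool.Agent.W216.CY.Div
import Pool.Agent.W216.CY.Has
import Pool.Agent.W230.CY.Orth
import Pool.Agent.W928.CY.Mob
import Pool.Agent.W74.CY.WPP
import Pool.Agent.W305.CY.Weil
import Pool.Agent.W215.CY.Kloo
import Pool.Agent.W143.CY.COUNT
import Pool.Agent.W736.CY.GTAIL
import Pool.Agent.W378.CY.AFE
import Pool.Agent.W928.CY.DUALP
import Pool.Agent.W193.CY.Finn
import Pool.Agent.W460.CY.MAINP

/-!
# Nonvanishing of `L(E, χ, 1)` for all Dirichlet characters of large order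

`E/ℚ` is an elliptic curve of conductor `N`, `f ∈ S_2(Γ₀(N))` its newform (modularity theorem).
For all but finitely many primitive Dirichlet characters `χ` of conductor `q` prime to `N` and of
order at least `q ^ (3/4 + ε)` some power `ψ = χ ^ a`, `a` prime to the order of `χ` (that is, a
Galois conjugate of `χ`), satisfies `|L(E, ψ, 1)| ≥ q ^ (-ε)`.

By Shimura's theorem (`L(E, χ, 1) = 0` if and only if `L(E, χ ^ a, 1) = 0`) it follows that
`L(E, χ, 1) ≠ 0` for all these `χ`, and by Kato's theorem the `χ`-part of `E(ℚ(ζ_q))` is finite.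

Joint work of helper192 with helper19, 74, 143, 193, 196, 215, 216, 230, 305, 378, 410, 460, 479,
612, 736, 756, 916, 928, on the library of helper388 and others on twists of newforms.
-/

set_option autoImplicit false

open Complex UpperHalfPlane MatrixGroups CongruenceSubgroup

namespace Pool.Agent.Results.MP_cd906c_nt.LargeOrderCharacters

/-- The number of solutions `(x, y)` modulo `p` of the Weierstrass equation
`y² + a₁ x y + a₃ y = x³ + a₂ x² + a₄ x + a₆`. -/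
def pts (W : WeierstrassCurve ℤ) (p : ℕ) : ℕ :=
  ((Finset.range p ×ˢ Finset.range p).filter (fun z : ℕ × ℕ =>
    (p : ℤ) ∣ (z.2 : ℤ) ^ 2 + W.a₁ * z.1 * z.2 + W.a₃ * z.2 -
      ((z.1 : ℤ) ^ 3 + W.a₂ * (z.1 : ℤ) ^ 2 + W.a₄ * z.1 + W.a₆))).card

/-- The `n`-th Fourier coefficient of `f`. -/
noncomputable def coef {N : ℕ} (f : CuspForm (Gamma0 N : Subgroup (GL (Fin 2) ℝ)) 2) (n : ℕ) : ℂ :=
  (qExpansion 1 f).coeff n

/-- `f ∈ S_2(Γ₀(N))` is the newform of the elliptic curve with global minimal Weierstrass equation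
`W` and conductor `N`: the Fourier coefficients `c(n)` of `f` are real with `c(1) = 1`, they satisfy
the Hecke relations `c(mn) = c(m) c(n)` for coprime `m`, `n` and
`c(p^(j+2)) = c(p) c(p^(j+1)) - p c(p^j)` (without the last term if `p ∣ N`), `f` is an
eigenfunction of the Fricke involution: `f(-1/(Nτ)) = -w N τ² f(τ)` with `w = ±1`,
`c(p) = p - #{solutions of W modulo p}` for the primes `p ∤ N`, and `c(p) ∈ {0, 1, -1}` for the
primes `p ∣ N`. -/
structure IsNewformOf (W : WeierstrassCurve ℤ) (N : ℕ)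
    (f : CuspForm (Gamma0 N : Subgroup (GL (Fin 2) ℝ)) 2) : Prop where
  one : coef f 1 = 1
  real : ∀ n, (coef f n).im = 0
  mul : ∀ m n : ℕ, Nat.Coprime m n → coef f (m * n) = coef f m * coef f n
  pow : ∀ p j : ℕ, p.Prime → coef f (p ^ (j + 2)) = coef f p * coef f (p ^ (j + 1)) -
      (if p ∣ N then 0 else (p : ℂ) * coef f (p ^ j))
  fricke : ∃ w : ℝ, (w = 1 ∨ w = -1) ∧ ∀ τ τ' : ℍ, (τ' : ℂ) * ((N : ℂ) * (τ : ℂ)) = -1 →
    f τ' = -(w : ℂ) * (N : ℂ) * (τ : ℂ) ^ 2 * f τ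
  good : ∀ p : ℕ, p.Prime → ¬ p ∣ N → coef f p = (p : ℂ) - (pts W p : ℂ)
  bad : ∀ p : ℕ, p.Prime → p ∣ N → coef f p = 0 ∨ coef f p = 1 ∨ coef f p = -1

/-- The Euler factor of `L(E, χ, s)` at the prime `p`:
`(1 - χ(p) c(p) p^(-s) + χ(p)² p^(1-2s))⁻¹` for `p ∤ N`, `(1 - χ(p) c(p) p^(-s))⁻¹` for `p ∣ N`. -/
noncomputable def factor {N : ℕ} (f : CuspForm (Gamma0 N : Subgroup (GL (Fin 2) ℝ)) 2) (q : ℕ)
    (χ : DirichletCharacter ℂ q) (s : ℂ) (p : ℕ) : ℂ :=
  (1 - χ (p : ZMod q) * coef f p * (p : ℂ) ^ (-s) +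
    (if p ∣ N then 0 else χ (p : ZMod q) ^ 2 * (p : ℂ) ^ (1 - 2 * s)))⁻¹

/-! ### Translation from the analytic normalisation -/

theorem lamf_eq {N : ℕ} (f : CuspForm (Gamma0 N : Subgroup (GL (Fin 2) ℝ)) 2)
    (hr : ∀ n, (coef f n).im = 0) (p : ℕ) (hp : p.Prime) (s : ℂ) :
    (W388.lamf f p : ℂ) * (p : ℂ) ^ (-(s - 1 / 2)) = coef f p * (p : ℂ) ^ (-s) := by
  have hp0 : (0 : ℝ) < p := by exact_mod_cast hp.pos
  have hpc : (p : ℂ) ≠ 0 := by exact_mod_cast hp.ne_zero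
  have hc : coef f p = ((coef f p).re : ℂ) := by
    apply Complex.ext
    · simp
    · simp [hr p]
  unfold W388.lamf
  rw [hc]
  unfold coef
  rw [show -(s - 1 / 2) = -s + (1 / 2 : ℂ) by ring, Complex.cpow_add _ _ hpc]
  push_cast
  rw [Complex.ofReal_cpow hp0.le]
  have e : ((((2 : ℝ) - 1) / 2 : ℝ) : ℂ) = (1 / 2 : ℂ) := by push_cast; norm_num
  rw [e]
  have hne : (p : ℂ) ^ (1 / 2 : ℂ) ≠ 0 := by
    rw [Ne, Complex.cpow_eq_zero_iff]
    exact fun h => hpc h.1
  rw [Complex.ofReal_natCast]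
  field_simp

theorem factor_shift {N : ℕ} (f : CuspForm (Gamma0 N : Subgroup (GL (Fin 2) ℝ)) 2)
    (hr : ∀ n, (coef f n).im = 0) (q : ℕ)
    (χ : DirichletCharacter ℂ q) (s : ℂ) (p : ℕ) (hp : p.Prime) :
    factor f q χ s p = (1 - χ (p : ZMod q) * (W388.lamf f p : ℂ) * (p : ℂ) ^ (-(s - 1 / 2)) +
      (if p ∣ N then 0 else χ (p : ZMod q) ^ 2 * (p : ℂ) ^ (-2 * (s - 1 / 2))))⁻¹ := by
  unfold factor
  rw [mul_assoc (χ (p : ZMod q)) (W388.lamf f p : ℂ), lamf_eq f hr p hp s, ← mul_assoc,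
    show (-2 * (s - 1 / 2) : ℂ) = 1 - 2 * s by ring]

theorem isNewf {W : WeierstrassCurve ℤ} {N : ℕ}
    {f : CuspForm (Gamma0 N : Subgroup (GL (Fin 2) ℝ)) 2} (hf : IsNewformOf W N f) :
    ∃ w : ℝ, W388.IsNewf N 2 f w := by
  obtain ⟨w, hw, hfr⟩ := hf.fricke
  have hN0 : (0 : ℝ) ≤ (N : ℝ) := Nat.cast_nonneg N
  have hsq : ((Real.sqrt N : ℝ) : ℂ) ^ 2 = (N : ℂ) := by
    have h1 : (Real.sqrt N) ^ 2 = (N : ℝ) := Real.sq_sqrt hN0
    exact_mod_cast congrArg (fun x : ℝ => (x : ℂ)) h1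
  refine ⟨w, hf.one, hf.real, hf.mul, ?_, hw, ?_⟩
  · intro p j hp
    have h1 := hf.pow p j hp
    unfold coef at h1
    rw [h1]
    norm_num
  · intro τ τ' h
    rw [hfr τ τ' h]
    congr 1
    have hI : Complex.I ^ 2 = -1 := Complex.I_sq
    have : (((Real.sqrt N : ℝ) : ℂ) * (τ : ℂ) / Complex.I) ^ (2 : ℤ) = -((N : ℂ) * (τ : ℂ) ^ 2) := by
      rw [zpow_ofNat, div_pow, mul_pow, hsq, hI]
      ring
    rw [this]
    ring

theorem isCoef {W : WeierstrassCurve ℤ} {N : ℕ} [NeZero N]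
    {f : CuspForm (Gamma0 N : Subgroup (GL (Fin 2) ℝ)) 2} (hf : IsNewformOf W N f) :
    Pool.Agent.W192.CY.Coef N (fun n => ((qExpansion 1 f).coeff n).re) := by
  have hre : ∀ n, (coef f n) = (((coef f n).re : ℝ) : ℂ) := fun n => by
    apply Complex.ext
    · simp
    · simp [hf.real n]
  constructor
  · have h := W388.coeff_zero f
    simp [h]
  · have h := hf.one
    unfold coef at h
    simp [h]
  · intro m n h
    have h1 := hf.mul m n h
    rw [hre (m * n), hre m, hre n] at h1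
    exact_mod_cast h1
  · intro p j hp
    have h1 := hf.pow p j hp
    rw [hre (p ^ (j + 2)), hre p, hre (p ^ (j + 1)), hre (p ^ j)] at h1
    by_cases h : p ∣ N
    · simp only [h, if_true] at h1 ⊢
      exact_mod_cast h1
    · simp only [h, if_false] at h1 ⊢
      exact_mod_cast h1
  · intro p hp hpN
    have h1 := hf.good p hp hpN
    have h2 : ((qExpansion 1 f).coeff p).re = (p : ℝ) - (pts W p : ℝ) := by
      change (coef f p).re = _
      rw [h1]
      simp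
    rw [h2]
    exact Pool.Agent.W216.CY.t_has W p hp
  · intro p hp hpN
    change |(coef f p).re| ≤ 1
    rcases hf.bad p hp hpN with h | h | h <;> rw [h] <;> simp

/-- **Main theorem.** Let `f` be the newform of the elliptic curve `E/ℚ` with global minimal
equation `W` and conductor `N`.  For every primitive Dirichlet character `χ` of conductor `q` prime
to `N` there is an entire function `L q χ` which for `Re s > 3/2` is the Euler product of
`L(E, χ, s)`; and for every `ε > 0` there is `q₀` such that for all `q ≥ q₀` prime to `N` and all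
primitive characters `χ` modulo `q` of order at least `q ^ (3/4 + ε)` there is a natural number `a`
prime to the order of `χ` such that `χ ^ a` is primitive and `|L(E, χ ^ a, 1)| ≥ q ^ (-ε)`. -/
theorem result (W : WeierstrassCurve ℤ) (N : ℕ) [NeZero N]
    (f : CuspForm (Gamma0 N : Subgroup (GL (Fin 2) ℝ)) 2) (hf : IsNewformOf W N f) :
    ∃ L : (q : ℕ) → DirichletCharacter ℂ q → ℂ → ℂ,
      (∀ (q : ℕ) (χ : DirichletCharacter ℂ q), 1 ≤ q → Nat.Coprime q N → χ.IsPrimitive →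
        Differentiable ℂ (L q χ) ∧ ∀ s : ℂ, 3 / 2 < s.re →
          HasProd (fun p : Nat.Primes => factor f q χ s p) (L q χ s)) ∧
      ∀ ε : ℝ, 0 < ε → ∃ q0 : ℕ, ∀ q : ℕ, q0 ≤ q → Nat.Coprime q N →
        ∀ χ : DirichletCharacter ℂ q, χ.IsPrimitive → (q : ℝ) ^ (3 / 4 + ε) ≤ orderOf χ →
          ∃ a : ℕ, Nat.Coprime a (orderOf χ) ∧ (χ ^ a).IsPrimitive ∧
            (q : ℝ) ^ (-ε) ≤ ‖L q (χ ^ a) 1‖ := by
  obtain ⟨w, hf'⟩ := isNewf hf
  have hdiv := Pool.Agent.W216.CY.t_div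
  have horth := Pool.Agent.W230.CY.t_orth
  have hmob := Pool.Agent.W928.CY.t_mob
  have hweil := Pool.Agent.W305.CY.t_weil Pool.Agent.W74.CY.wpp hdiv
  have hkloo := Pool.Agent.W215.CYKloo.t_kloo horth hweil
  have htail := Pool.Agent.W736.CY.GTAIL.t_gtail (Pool.Agent.W143.CY.g_count hdiv)
  have hmain := Pool.Agent.W460.CY.g_mainp hdiv horth hmob htail
  have hdual := Pool.Agent.W928.CY.dualp hdiv hmob hkloo
  have hfin := Pool.Agent.W193.CY.g_FINN W612.CY.t_coef hdiv hmob hmain hdual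
  obtain ⟨L, hL, h⟩ := Pool.Agent.W192.CY.core W612.CY.t_coef Pool.Agent.W378.CY.t_AFE hfin hf'
    (isCoef hf)
  refine ⟨fun q χ s => L q χ (s - 1 / 2), ?_, ?_⟩
  · intro q χ hq hqM hχ
    obtain ⟨h1, h2⟩ := hL q χ hq hqM hχ
    refine ⟨h1.comp (by fun_prop), fun s hs => ?_⟩
    have h3 := h2 (s - 1 / 2) (by
      have : (s - 1 / 2 : ℂ).re = s.re - 1 / 2 := by simp
      rw [this]; linarith)
    refine (congrArg (fun g => HasProd g (L q χ (s - 1 / 2))) (funext fun p => ?_)).mpr h3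
    exact factor_shift f hf.real q χ s p p.2
  · intro ε hε
    obtain ⟨q0, h0⟩ := h ε hε
    refine ⟨q0, fun q hq hqN χ hχ hord => ?_⟩
    obtain ⟨a, ha1, ha2, ha3⟩ := h0 q hq hqN χ hχ hord
    refine ⟨a, ha1, ha2, ?_⟩
    have e : (1 : ℂ) - 1 / 2 = 1 / 2 := by norm_num
    simpa only [e] using ha3

end Pool.Agent.Results.MP_cd906c_nt.LargeOrderCharacters
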